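import Pool.Agent.R562.CT.Final

set_option autoImplicit false

/-!
# Certifying the determinant and the coefficients of the characteristic polynomial

Definitions: `LF`, `LF.val`, `NTree`, `NTree.Acc`, `NTree.Accepts` are in
`Pool.Agent.W966.Vg.Defs`, `dd`, `D3` in `Pool.Agent.R562.ND.Cubic`, `ent` in
`Pool.Agent.R562.ND.Trace`, `Certifies` in `Pool.Agent.R562.CT.Lin`, `charP` in
`Pool.Agent.R562.CT.Det`, `omega` in `Pool.Agent.H515R2.MMR.Rank`.
-/

namespace Pool.Agent.Results.MP_e72dc0_lc.CertifyingDeterminants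

open MvPolynomial Filter Pool.Agent.W966.Vg Pool.Agent.R562.ND Pool.Agent.R562.CT
open Pool.Agent.H515R2.MMR (omega)

/-- Nondeterministic algebraic computation trees (`NTree K ι`) over an algebraically closed field
`K` of characteristic `0` multiply, divide, test for zero, branch, guess elements of `K`, and accept
or reject; only multiplications and divisions are counted. `Certifies t L f` says that `t` certifies
the values of the polynomial `f` generically with at most `L` of them: for some `M` and for a
Zariski dense set of inputs `x` it can accept `(x, f x)`, and at most `M` pairs `(x, y)`.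
`charP K n k` is the coefficient of `X ^ k` in the characteristic polynomial of the `n × n` matrix
`A` (so `charP K n 0` is `± det A`), and `D3 f b x y z` is the third derivative of `f` at `b`.

(1) Let `f` be a polynomial of any degree one of whose third derivatives contains the tensor of
`m × m` matrix multiplication. If `t` certifies the values of `f` with `L` multiplications and
divisions then `m ^ ω ≤ 18 L`.
(2) This holds for every coefficient `k ≤ n - 3` of the characteristic polynomial and
`m = ⌊n / 3⌋`; in particular for the determinant.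
(3) If `c ≠ 0` and `t` accepts exactly the matrices with `det A = c`, with at most `L`
multiplications and divisions, then `⌊n / 3⌋ ^ ω ≤ 18 (L + n)`.
(4) In contrast, the matrices with `det A = 0` are accepted with `n ^ 2` multiplications.
(5), (6) Hence, if the assumptions of (2) or (3) hold for infinitely many `n` with any `k` or `c`
depending on `n` and with `L ≤ D n ^ τ`, then `ω ≤ τ`. -/
theorem result :
    (∀ {K : Type} [Field K] [IsAlgClosed K] [CharZero K] {ι : Type} [Fintype ι] {L m : ℕ}
      {t : NTree K (ι ⊕ Unit)} {f : MvPolynomial ι K}, Certifies t L (fun _ => f) →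
      ∀ (b : ι → K) (x y z : Fin m → Fin m → ι → K) (γ : K), γ ≠ 0 →
      (∀ i j j' k k' l, D3 f b (x i j) (y j' k) (z k' l) =
        if j = j' ∧ k = k' ∧ l = i then γ else 0) → 0 < m →
      (m : ℝ) ^ omega ≤ 18 * L) ∧
    (∀ {K : Type} [Field K] [IsAlgClosed K] [CharZero K] {n k L : ℕ}, k + 3 ≤ n →
      ∀ {t : NTree K (Fin n × Fin n ⊕ Unit)}, Certifies t L (fun _ => charP K n k) →
      ((n / 3 : ℕ) : ℝ) ^ omega ≤ 18 * L) ∧
    (∀ {K : Type} [Field K] [IsAlgClosed K] [CharZero K] {n L : ℕ} {c : K}, c ≠ 0 →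
      ∀ {t : NTree K (Fin n × Fin n)}, (∀ A, t.Accepts (ent A) L ↔ A.det = c) →
      ((n / 3 : ℕ) : ℝ) ^ omega ≤ 18 * (L + n)) ∧
    (∀ (K : Type) [Field K] (n : ℕ), ∃ t : NTree K (Fin n × Fin n),
      ∀ A : Matrix (Fin n) (Fin n) K, t.Accepts (ent A) (n ^ 2) ↔ A.det = 0) ∧
    (∀ {K : Type} [Field K] [IsAlgClosed K] [CharZero K] (τ D : ℝ),
      (∃ᶠ n : ℕ in atTop, ∃ (k : ℕ) (t : NTree K (Fin n × Fin n ⊕ Unit)) (L : ℕ), k + 3 ≤ n ∧
        Certifies t L (fun _ => charP K n k) ∧ (L : ℝ) ≤ D * (n : ℝ) ^ τ) → omega ≤ τ) ∧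
    (∀ {K : Type} [Field K] [IsAlgClosed K] [CharZero K] (τ D : ℝ),
      (∃ᶠ n : ℕ in atTop, ∃ (c : K) (t : NTree K (Fin n × Fin n)) (L : ℕ), c ≠ 0 ∧
        (∀ A, t.Accepts (ent A) L ↔ A.det = c) ∧ (L : ℝ) ≤ D * (n : ℝ) ^ τ) → omega ≤ τ) :=
  ⟨fun H b x y z γ hγ hf hm => scalar H b x y z γ hγ hf hm,
    fun hk _ H => charP_lower hk H, fun hc _ H => det_eq_lower hc H,
    fun K _ n => sing_tree K n, fun τ D h => exponent_charP τ D h,
    fun τ D h => exponent_det τ D h⟩

end Pool.Agent.Results.MP_e72dc0_lc.CertifyingDeterminants
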