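import Pool.Agent.R313.FewForms

set_option autoImplicit false

/-!
# Matrix multiplication with few different linear forms

`IsAlg U V W` (in `Pool.Agent.H88R3.MM.Rank`): the bilinear algorithm with the products of the linear
forms with coefficient matrices `U l` and `V l` computes the product of an `I × J` by a `J × K`
matrix. `Circuit`, `nonscalarCount` (in `Pool.Agent.H522R2.Circuit`): arithmetic circuits and the
number of their nonscalar multiplications. `Computes C`, `AParts C G X`, `BParts C G X` (in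
`Pool.Agent.R313.FewForms`): the circuit `C` computes the entries of the product of two generic
`m × m` matrices; all factors of the nonscalar products outside the set `G` have a linear part in
the entries of the first (second) matrix which is a multiple of a member of the list `X`.
-/

namespace Pool.Agent.Results.MP_e72dc0_lc.FewDifferentForms

open Finset Module Pool.Agent.H88R3.MM Pool.Agent.H522R2 Pool.Agent.R313.FF

/-- There is an algorithm with `N` products for `n × n` matrices whose first forms, second forms and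
output matrices are each taken from a list with `M` members. -/
def HasLists (F : Type*) [Field F] (n N M : ℕ) : Prop :=
  ∃ U V W : Fin N → Matrix (Fin n) (Fin n) F, IsAlg U V W ∧
    ∃ X Y T : Fin M → Matrix (Fin n) (Fin n) F,
      ∀ l, (∃ j, U l = X j) ∧ (∃ j, V l = Y j) ∧ ∃ j, W l = T j

variable {F : Type*} [Field F]

theorem HasLists.mul {n N M n' N' M' : ℕ} (h : HasLists F n N M) (h' : HasLists F n' N' M') :
    HasLists F (n * n') (N * N') (M * M') := by
  obtain ⟨U, V, W, h1, X, Y, T, h2⟩ := h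
  obtain ⟨U', V', W', h1', X', Y', T', h2'⟩ := h'
  let e : Fin (M * M') ≃ Fin M × Fin M' := finProdFinEquiv.symm
  refine ⟨_, _, _, (h1.kron h1').reindex finProdFinEquiv.symm finProdFinEquiv.symm
    finProdFinEquiv.symm finProdFinEquiv.symm,
    fun j => (Matrix.kroneckerMap (fun x y => x * y) (X (e j).1) (X' (e j).2)).submatrix
      finProdFinEquiv.symm finProdFinEquiv.symm,
    fun j => (Matrix.kroneckerMap (fun x y => x * y) (Y (e j).1) (Y' (e j).2)).submatrix
      finProdFinEquiv.symm finProdFinEquiv.symm,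
    fun j => (Matrix.kroneckerMap (fun x y => x * y) (T (e j).1) (T' (e j).2)).submatrix
      finProdFinEquiv.symm finProdFinEquiv.symm, fun l => ?_⟩
  obtain ⟨⟨j1, hj1⟩, ⟨j2, hj2⟩, j3, hj3⟩ := h2 ((finProdFinEquiv.symm l : Fin N × Fin N')).1
  obtain ⟨⟨i1, hi1⟩, ⟨i2, hi2⟩, i3, hi3⟩ := h2' ((finProdFinEquiv.symm l : Fin N × Fin N')).2
  refine ⟨⟨e.symm (j1, i1), ?_⟩, ⟨e.symm (j2, i2), ?_⟩, ⟨e.symm (j3, i3), ?_⟩⟩
  · simp only [e.apply_symm_apply, hj1, hi1]
  · simp only [e.apply_symm_apply, hj2, hi2]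
  · simp only [e.apply_symm_apply, hj3, hi3]

theorem hasLists_school (q : ℕ) : HasLists F q (q ^ 3) (q ^ 2) := by
  have h : IsAlg (L := Fin q × Fin q × Fin q)
      (fun l => Matrix.single l.1 l.2.1 (1 : F)) (fun l => Matrix.single l.2.1 l.2.2 (1 : F))
      (fun l => Matrix.single l.1 l.2.2 (1 : F)) := by
    refine isAlg_of_coeff ?_
    intro i i' j j' k k'
    rw [Fintype.sum_prod_type, Finset.sum_eq_single i]
    · rw [Fintype.sum_prod_type, Finset.sum_eq_single j]
      · rw [Finset.sum_eq_single k]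
        · simp only [Matrix.single_apply, and_true, if_true, one_mul]
          by_cases h1 : i = i' <;> by_cases h2 : j = j' <;> by_cases h3 : k = k' <;>
            simp [h1, h2, h3]
        · intro b _ hb
          simp [Matrix.single_apply, hb]
        · simp
      · intro b _ hb
        refine Finset.sum_eq_zero fun x _ => ?_
        simp [Matrix.single_apply, hb]
      · simp
    · intro b _ hb
      refine Finset.sum_eq_zero fun x _ => ?_
      simp [Matrix.single_apply, hb]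
    · simp
  let e : Fin (q ^ 3) ≃ Fin q × Fin q × Fin q :=
    Fintype.equivOfCardEq (by simp [pow_succ, mul_assoc])
  let e2 : Fin (q ^ 2) ≃ Fin q × Fin q := Fintype.equivOfCardEq (by simp [pow_succ])
  let S : Fin (q ^ 2) → Matrix (Fin q) (Fin q) F := fun j =>
    Matrix.single (e2 j).1 (e2 j).2 (1 : F)
  refine ⟨_, _, _, h.reindex (Equiv.refl _) (Equiv.refl _) (Equiv.refl _) e, S, S, S, fun l => ?_⟩
  simp only [Equiv.coe_refl, Matrix.submatrix_id_id]
  refine ⟨⟨e2.symm ((e l).1, (e l).2.1), ?_⟩, ⟨e2.symm ((e l).2.1, (e l).2.2), ?_⟩,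
    ⟨e2.symm ((e l).1, (e l).2.2), ?_⟩⟩
  all_goals simp only [S, e2.apply_symm_apply]

theorem hasLists_strassen (t : ℕ) : HasLists F (2 ^ t) (7 ^ t) (7 ^ t) := by
  induction t with
  | zero => simpa using hasLists_school (F := F) 1
  | succ t ih =>
    rw [pow_succ, pow_succ]
    exact ih.mul ⟨sU F, sV F, sW F, strassen F, sU F, sV F, sW F,
      fun l => ⟨⟨l, rfl⟩, ⟨l, rfl⟩, l, rfl⟩⟩

/-- the exponent -/
theorem real_bound {m k : ℕ} (hm : 1 ≤ m) {K e N : ℝ} (hK : 1 / 2 ≤ K) (he1 : e ≤ 1 / 2)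
    (hk : (k : ℝ) ≤ K * ((m : ℝ) ^ 2) ^ (1 - e)) (h1 : (m : ℝ) ^ 3 ≤ 2 * N + k * m ^ 2)
    (h2 : m ≤ 2 * k → (m : ℝ) ^ 4 ≤ 8 * k * N) (hN : 0 ≤ N) :
    ((m : ℝ) ^ 2) ^ (1 + e) ≤ 8 * K * N := by
  have hm0 : (1 : ℝ) ≤ m := by exact_mod_cast hm
  have hm' : (0 : ℝ) < (m : ℝ) ^ 2 := by positivity
  by_cases hmk : m ≤ 2 * k
  · have h3 := h2 hmk
    have h4 : ((m : ℝ) ^ 2) ^ (1 + e) * ((m : ℝ) ^ 2) ^ (1 - e) = (m : ℝ) ^ 4 := by
      rw [← Real.rpow_add hm', show (1 + e) + (1 - e) = ((2 : ℕ) : ℝ) by push_cast; ring,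
        Real.rpow_natCast]
      ring
    have h5 : (0 : ℝ) < ((m : ℝ) ^ 2) ^ (1 - e) := Real.rpow_pos_of_pos hm' _
    refine le_of_mul_le_mul_right ?_ h5
    rw [h4]
    calc (m : ℝ) ^ 4 ≤ 8 * k * N := h3
      _ ≤ 8 * (K * ((m : ℝ) ^ 2) ^ (1 - e)) * N := by gcongr
      _ = 8 * K * N * ((m : ℝ) ^ 2) ^ (1 - e) := by ring
  · have h3 : (2 * k : ℝ) ≤ m := by
      have : 2 * k ≤ m := by omega
      exact_mod_cast this
    have h4 : (m : ℝ) ^ 3 ≤ 4 * N := by nlinarith [hm']
    have h5 : ((m : ℝ) ^ 2) ^ (1 + e) ≤ ((m : ℝ) ^ 2) ^ (3 / 2 : ℝ) := by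
      refine Real.rpow_le_rpow_of_exponent_le (one_le_pow₀ hm0) (by linarith)
    have h6 : ((m : ℝ) ^ 2) ^ (3 / 2 : ℝ) = (m : ℝ) ^ 3 := by
      rw [← Real.rpow_natCast (m : ℝ) 2, ← Real.rpow_mul (by linarith),
        ← Real.rpow_natCast (m : ℝ) 3]
      congr 1
      push_cast
      norm_num
    rw [h6] at h5
    have h7 : 4 * N ≤ 8 * K * N := by nlinarith
    linarith

theorem result :
    -- bilinear algorithms, arbitrary formats, with exceptional products
    (∀ (I J K L ι : Type) [Fintype I] [Fintype J] [Fintype K] [Fintype L] [Fintype ι]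
      (U : L → Matrix I J F) (V : L → Matrix J K F) (W : L → Matrix I K F), IsAlg U V W →
      ∀ (Z : Finset L) (X : ι → Matrix I J F), (∀ l ∉ Z, ∃ (j : ι) (c : F), U l = c • X j) →
      ∀ k : ℕ, Fintype.card ι ≤ finrank F (Submodule.span F (Set.range X)) + k →
      ∀ θ : ℝ, 0 ≤ θ → θ ≤ Fintype.card K →
        θ * (Fintype.card I * Fintype.card J * Fintype.card K) ≤
          Fintype.card K * (Fintype.card L - Z.card) +
            Fintype.card I * (k * θ ^ 2 + Z.card * θ)) ∧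
    -- square matrices: first forms, or second forms, or output matrices
    (∀ (n r N k : ℕ) (U V W : Fin r → Matrix (Fin n) (Fin n) F), IsAlg U V W →
      ∀ (Z : Finset (Fin r)) (X : Fin N → Matrix (Fin n) (Fin n) F),
      ((∀ l ∉ Z, ∃ (j : Fin N) (c : F), U l = c • X j) ∨
        (∀ l ∉ Z, ∃ (j : Fin N) (c : F), V l = c • X j) ∨
        (∀ l ∉ Z, ∃ (j : Fin N) (c : F), W l = c • X j)) →
      N ≤ finrank F (Submodule.span F (Set.range X)) + k →
      ∀ θ : ℝ, 0 ≤ θ → θ ≤ n → θ * n ^ 2 ≤ (r - Z.card) + k * θ ^ 2 + Z.card * θ) ∧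
    -- square matrices, no exceptional products
    (∀ (n r N k : ℕ) (U V W : Fin r → Matrix (Fin n) (Fin n) F), IsAlg U V W →
      ∀ (X : Fin N → Matrix (Fin n) (Fin n) F),
      ((∀ l, ∃ (j : Fin N) (c : F), U l = c • X j) ∨
        (∀ l, ∃ (j : Fin N) (c : F), V l = c • X j) ∨
        (∀ l, ∃ (j : Fin N) (c : F), W l = c • X j)) →
      N ≤ n ^ 2 + k → (n : ℝ) ^ 3 ≤ r + k * n ^ 2 ∧ (n ≤ 2 * k → (n : ℝ) ^ 4 ≤ 4 * k * r)) ∧
    -- arithmetic circuits
    (∀ (m N k : ℕ) (C : Circuit F (Vars m)), Computes C →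
      ∀ X : Fin N → Matrix (Fin m) (Fin m) F,
        (∀ G : Finset (Fin C.nodes), (AParts C G X ∨ BParts C G X) →
          N ≤ finrank F (Submodule.span F (Set.range X)) + k →
          ∀ θ : ℝ, 0 ≤ θ → θ ≤ m →
            θ * m ^ 2 ≤ 2 * C.nonscalarCount + k * θ ^ 2 + 2 * G.card * θ) ∧
        ((AParts C ∅ X ∨ BParts C ∅ X) → N ≤ m ^ 2 + k →
          (m : ℝ) ^ 3 ≤ 2 * C.nonscalarCount + k * m ^ 2 ∧
          (m ≤ 2 * k → (m : ℝ) ^ 4 ≤ 8 * k * C.nonscalarCount) ∧
          (1 ≤ m → ∀ K ε : ℝ, 1 / 2 ≤ K → ε ≤ 1 / 2 → (k : ℝ) ≤ K * ((m : ℝ) ^ 2) ^ (1 - ε) →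
            ((m : ℝ) ^ 2) ^ (1 + ε) ≤ 8 * K * C.nonscalarCount))) ∧
    -- algorithms with few products in which the numbers of the different forms are linear in `n ^ 2`
    (∀ q t : ℕ, HasLists F (q * 2 ^ t) (q ^ 3 * 7 ^ t) (q ^ 2 * 7 ^ t)) := by
  refine ⟨fun I J K L ι _ _ _ _ _ U V W h Z X hX k hk θ h0 h1 =>
      IsAlg.few_forms_span h Z X hX k hk θ h0 h1, fun n r N k U V W h Z X hX hk θ h0 h1 => ?_,
    fun n r N k U V W h X hX hk => ?_,
    fun m N k C hC X => ⟨fun G hX hk => circuit_bound C hC G X hX k hk, fun hX hk => ?_⟩,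
    fun q t => (hasLists_school q).mul (hasLists_strassen t)⟩
  · have := square_any h Z X hX k (by rwa [Fintype.card_fin]) θ h0 h1
    rwa [Fintype.card_fin] at this
  · refine consequences fun θ h0 h1 => ?_
    have := square_any0 h X hX k (by rwa [Fintype.card_fin]) θ h0 h1
    rwa [Fintype.card_fin] at this
  · have h3 := consequences (circuit_bound0 C hC X hX k hk)
    have h4 : m ≤ 2 * k → (m : ℝ) ^ 4 ≤ 8 * k * C.nonscalarCount := by
      intro hmk
      have := h3.2 hmk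
      linarith
    exact ⟨h3.1, h4, fun hm K ε hK hε hk2 => real_bound hm hK hε hk2 h3.1 h4 (Nat.cast_nonneg _)⟩

end Pool.Agent.Results.MP_e72dc0_lc.FewDifferentForms
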