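import Pool.Agent.R803.PG.Main

set_option autoImplicit false

/-!
# A gap theorem for permutation invariant polynomials of matrix entries

Definitions: `Ed`, `edMap`, `Invariant`, `Pat`, `homP`, `graph`, `Good`, `size`, `Iso`, `enc`,
`out`, `cost` in `Pool.Agent.R803.PG.Defs`; `combo` in `Pool.Agent.R803.PG.Lower`; `xv`, `RF` in
`Pool.Agent.H53R3.RatDer`; `SLPComputes`, `IsSLP`, `affS` in `Pool.Agent.H53R3.Slp`; `rk`, `omega`
in `Pool.Agent.H515R2.MMR.Rank`.
-/

namespace Pool.Agent.Results.MP_e72dc0_lc.PermutationInvariants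

open MvPolynomial Filter Pool.Agent.H515R2.MMR Pool.Agent.H53R3 Pool.Agent.R803.PG

/-- `Invariant f` says that the polynomial `f` in the entries of `m` complex `n × n` matrices does
not change if all matrices are conjugated by the same permutation matrix. `cost f` is the number
of multiplications and divisions needed to compute `f`; linear combinations are free.

1. Every sequence of invariant polynomials `f n` of bounded degree, with arbitrary coefficients
   which may depend on `n`, has cost `O(n²)`, or its cost is at least `δ n ^ ω` for infinitely many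
   `n`.
2. Uniformly: there are `c` and `δ > 0`, which only depend on `m` and the bound `D` for the degree,
   such that each single `f` has cost at most `c n²` or at least `δ n ^ ω`. In the second case
   `cost f ≥ N ^ ω / 6` for all `N ≤ n / (4 D)`.
3. Criterion for fixed combinations `∑ b_H hom(H, A)` of homomorphism polynomials of pairwise
   non-isomorphic patterns `H` without isolated vertices (directed edge-labelled multigraphs with
   loops): if the underlying simple graphs of all patterns are forests, the cost is `O(n²)`;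
   otherwise it is at least `δ n ^ ω` for all large `n`.
4. In particular this holds for every single pattern.
5. Hence there is a gap: if a sequence of invariant polynomials of bounded degree has cost
   `O(n ^ τ)` for some `τ < ω`, then its cost is `O(n²)`. -/
theorem result (m : ℕ) :
    -- 1. sequences
    (∀ (D : ℕ) (f : ∀ n : ℕ, MvPolynomial (Ed m (Fin n)) ℂ), (∀ n, Invariant (f n)) →
      (∀ n, (f n).totalDegree ≤ D) →
      (∃ c : ℕ, ∀ n, cost (f n) ≤ c * n ^ 2) ∨
      (∃ δ : ℝ, 0 < δ ∧ ∃ᶠ n : ℕ in atTop, δ * (n : ℝ) ^ omega ≤ cost (f n))) ∧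
    -- 2. uniform version
    (∀ D : ℕ, ∃ (c : ℕ) (δ : ℝ), 0 < δ ∧ ∀ (n : ℕ) (f : MvPolynomial (Ed m (Fin n)) ℂ),
      Invariant f → f.totalDegree ≤ D →
      cost f ≤ c * n ^ 2 ∨
      (δ * (n : ℝ) ^ omega ≤ cost f ∧
        ∀ N : ℕ, 1 ≤ N → 4 * D * N ≤ n → (N : ℝ) ^ omega ≤ 6 * cost f)) ∧
    -- 3. combinations of homomorphism polynomials
    (∀ b : Pat m →₀ ℂ, (∀ H ∈ b.support, Good H.2) →
      (∀ H ∈ b.support, ∀ H' ∈ b.support, Iso H H' → H = H') →
      ((∀ H ∈ b.support, (graph H.2).IsAcyclic) →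
        ∃ c : ℕ, ∀ n, cost (combo n b) ≤ c * n ^ 2) ∧
      ((∃ H ∈ b.support, ¬ (graph H.2).IsAcyclic) →
        ∃ δ : ℝ, 0 < δ ∧ ∀ᶠ n : ℕ in atTop, δ * (n : ℝ) ^ omega ≤ cost (combo n b))) ∧
    -- 4. one pattern
    (∀ H : Pat m, Good H.2 →
      ((graph H.2).IsAcyclic → ∃ c : ℕ, ∀ n, cost (homP n H) ≤ c * n ^ 2) ∧
      (¬ (graph H.2).IsAcyclic →
        ∃ δ : ℝ, 0 < δ ∧ ∀ᶠ n : ℕ in atTop, δ * (n : ℝ) ^ omega ≤ cost (homP n H))) ∧
    -- 5. the gap
    (∀ (D : ℕ) (f : ∀ n : ℕ, MvPolynomial (Ed m (Fin n)) ℂ), (∀ n, Invariant (f n)) →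
      (∀ n, (f n).totalDegree ≤ D) → ∀ (τ C : ℝ), τ < omega →
      (∀ n : ℕ, (cost (f n) : ℝ) ≤ C * (n : ℝ) ^ τ) → ∃ c : ℕ, ∀ n, cost (f n) ≤ c * n ^ 2) := by
  classical
  have h2 : ∀ D : ℕ, ∃ (c : ℕ) (δ : ℝ), 0 < δ ∧ ∀ (n : ℕ) (f : MvPolynomial (Ed m (Fin n)) ℂ),
      Invariant f → f.totalDegree ≤ D →
      cost f ≤ c * n ^ 2 ∨
      (δ * (n : ℝ) ^ omega ≤ cost f ∧
        ∀ N : ℕ, 1 ≤ N → 4 * D * N ≤ n → (N : ℝ) ^ omega ≤ 6 * cost f) := by
    intro D
    obtain ⟨c, hc⟩ := gap m D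
    set B : ℕ → ℕ := fun n => ∑ j ∈ Finset.range (D + 1),
      (Finset.finsuppAntidiag (Finset.univ : Finset (Ed m (Fin n))) j).card with hB
    refine ⟨c + ∑ n ∈ Finset.range (4 * D + 1), B n,
      (1 / (2 * ((4 * D + 1 : ℕ) : ℝ))) ^ omega / 6, by positivity, fun n f hf hD => ?_⟩
    rcases hc n f hf hD with h | h
    · left
      refine (cost_le h).trans (Nat.mul_le_mul_right _ (Nat.le_add_right _ _))
    · have h' : ∀ N : ℕ, 1 ≤ N → 4 * D * N ≤ n → (N : ℝ) ^ omega ≤ 6 * cost f :=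
        fun N h1 h3 => h N h1 h3 _ (cost_spec f)
      by_cases hn : 4 * D + 1 ≤ n
      · right
        refine ⟨power_bound (by omega) hn fun N h1 h3 => h' N h1 (le_trans ?_ h3), h'⟩
        exact Nat.mul_le_mul_right _ (Nat.le_succ _)
      · left
        rcases Nat.eq_zero_or_pos n with rfl | hn0
        · have := cost_le (slp_zero_case (f := f) 0)
          omega
        · have h3 : cost f ≤ B n := cost_le (slp_poly hD)
          have h4 : B n ≤ ∑ n ∈ Finset.range (4 * D + 1), B n :=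
            Finset.single_le_sum (f := B) (fun _ _ => Nat.zero_le _)
              (Finset.mem_range.mpr (by omega))
          have h5 : 1 ≤ n ^ 2 := Nat.one_le_pow _ _ hn0
          calc cost f ≤ c + ∑ n ∈ Finset.range (4 * D + 1), B n := by omega
            _ ≤ (c + ∑ n ∈ Finset.range (4 * D + 1), B n) * n ^ 2 :=
              Nat.le_mul_of_pos_right _ h5
  have h3 : ∀ b : Pat m →₀ ℂ, (∀ H ∈ b.support, Good H.2) →
      (∀ H ∈ b.support, ∀ H' ∈ b.support, Iso H H' → H = H') →
      ((∀ H ∈ b.support, (graph H.2).IsAcyclic) →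
        ∃ c : ℕ, ∀ n, cost (combo n b) ≤ c * n ^ 2) ∧
      ((∃ H ∈ b.support, ¬ (graph H.2).IsAcyclic) →
        ∃ δ : ℝ, 0 < δ ∧ ∀ᶠ n : ℕ in atTop, δ * (n : ℝ) ^ omega ≤ cost (combo n b)) := by
    intro b hg hiso
    constructor
    · intro hac
      obtain ⟨c, hc⟩ := upper_combo b hac
      exact ⟨c, fun n => cost_le (hc n)⟩
    · intro hex
      set K := ∑ H ∈ b.support, H.1 with hK
      refine ⟨(1 / (2 * ((2 * K + 1 : ℕ) : ℝ))) ^ omega / 6, by positivity, ?_⟩
      filter_upwards [eventually_ge_atTop (2 * K + 1)] with n hn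
      refine power_bound (by omega) hn fun N h1 hN => ?_
      refine lower_core (K := K) h1 b hg (fun H hH H' hH' _ _ hI => hiso H' hH' H hH hI) hex
        (fun H hH _ => Finset.single_le_sum (f := fun H : Pat m => H.1)
          (fun _ _ => Nat.zero_le _) hH) ?_ (cost_spec _)
      calc K * (2 * N) = 2 * K * N := by ring
        _ ≤ (2 * K + 1) * N := Nat.mul_le_mul_right _ (Nat.le_succ _)
        _ ≤ n := hN
  have h1 : ∀ (D : ℕ) (f : ∀ n : ℕ, MvPolynomial (Ed m (Fin n)) ℂ), (∀ n, Invariant (f n)) →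
      (∀ n, (f n).totalDegree ≤ D) →
      (∃ c : ℕ, ∀ n, cost (f n) ≤ c * n ^ 2) ∨
      (∃ δ : ℝ, 0 < δ ∧ ∃ᶠ n : ℕ in atTop, δ * (n : ℝ) ^ omega ≤ cost (f n)) := by
    intro D f hf hD
    obtain ⟨c, δ, hδ, hcδ⟩ := h2 D
    by_cases hfr : ∃ᶠ n : ℕ in atTop, δ * (n : ℝ) ^ omega ≤ cost (f n)
    · exact Or.inr ⟨δ, hδ, hfr⟩
    · left
      rw [not_frequently, eventually_atTop] at hfr
      obtain ⟨n₀, hn₀⟩ := hfr
      refine ⟨c + ∑ n ∈ Finset.range n₀, cost (f n), fun n => ?_⟩
      by_cases hn : n₀ ≤ n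
      · rcases hcδ n (f n) (hf n) (hD n) with h | h
        · exact h.trans (Nat.mul_le_mul_right _ (Nat.le_add_right _ _))
        · exact absurd h.1 (hn₀ n hn)
      · rcases Nat.eq_zero_or_pos n with rfl | hn0
        · have := cost_le (slp_zero_case (f := f 0) 0)
          omega
        · have h4 : cost (f n) ≤ ∑ n ∈ Finset.range n₀, cost (f n) :=
            Finset.single_le_sum (f := fun n => cost (f n)) (fun _ _ => Nat.zero_le _)
              (Finset.mem_range.mpr (by omega))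
          have h5 : 1 ≤ n ^ 2 := Nat.one_le_pow _ _ hn0
          calc cost (f n) ≤ c + ∑ n ∈ Finset.range n₀, cost (f n) := by omega
            _ ≤ (c + ∑ n ∈ Finset.range n₀, cost (f n)) * n ^ 2 := Nat.le_mul_of_pos_right _ h5
  refine ⟨h1, h2, h3, ?_, ?_⟩
  · intro H hH
    have hs : (Finsupp.single H (1 : ℂ)).support = {H} :=
      Finsupp.support_single _ one_ne_zero
    have hc : ∀ n, combo n (Finsupp.single H (1 : ℂ)) = homP n H := by
      intro n
      unfold combo
      rw [Finsupp.sum_single_index (by simp), one_smul]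
    have h4 := h3 (Finsupp.single H (1 : ℂ)) (by rw [hs]; simpa using hH)
      (by rw [hs]; intro A hA A' hA' _; rw [Finset.mem_singleton.mp hA, Finset.mem_singleton.mp hA'])
    rw [hs] at h4
    simp only [hc, Finset.mem_singleton, forall_eq, exists_eq_left] at h4
    exact h4
  · intro D f hf hD τ C hτ hC
    rcases h1 D f hf hD with h | ⟨δ, hδ, hfr⟩
    · exact h
    · exfalso
      have ht : Tendsto (fun n : ℕ => δ * (n : ℝ) ^ (omega - τ)) atTop atTop :=
        Tendsto.const_mul_atTop hδ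
          ((tendsto_rpow_atTop (sub_pos.mpr hτ)).comp tendsto_natCast_atTop_atTop)
      have hev : ∀ᶠ n : ℕ in atTop, C < δ * (n : ℝ) ^ (omega - τ) :=
        ht.eventually_gt_atTop C
      obtain ⟨n, hn1, hn2, hn3⟩ := (hfr.and_eventually (hev.and (eventually_ge_atTop 1))).exists
      have hn0 : (0 : ℝ) < n := by exact_mod_cast hn3
      have h4 : C * (n : ℝ) ^ τ < δ * (n : ℝ) ^ (omega - τ) * (n : ℝ) ^ τ :=
        mul_lt_mul_of_pos_right hn2 (Real.rpow_pos_of_pos hn0 _)
      rw [mul_assoc, ← Real.rpow_add hn0, sub_add_cancel] at h4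
      exact absurd (hn1.trans (hC n)) (not_le.mpr h4)

end Pool.Agent.Results.MP_e72dc0_lc.PermutationInvariants
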