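import Pool.Agent.R562.SC.Final

set_option autoImplicit false

/-!
# The determinant and the trace of the cube by arbitrary smooth operations

Definitions: `Aff`, `H2` are in `Pool.Agent.Y538.Net.Defs` and `Pool.Agent.Y538.Net.Hess`, `IsNet3`,
`T3` in `Pool.Agent.R562.SC.Hess3`, `CubicAt`, `Prog`, `Prog.Gives`, `Alg3`, `Alg3.pr` in
`Pool.Agent.R562.SC.Main3`, `Ents`, `mat`, `detF`, `cubeF`, `Alg3.Works` in
`Pool.Agent.R562.SC.Final`, `HasRank`, `rk`, `omega` in `Pool.Agent.H515R2.MMR.Rank`.
-/

namespace Pool.Agent.Results.MP_e72dc0_lc.SmoothDeterminant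

open Filter Pool.Agent.R562.SC
open Pool.Agent.H515R2.MMR (omega)

/-- Let `𝕜` be a nontrivially normed field which embeds into `ℂ` as a field (for instance `ℝ`, `ℂ`).
The programs (`Prog 𝕜 E a b`) have one number as the output. In one operation they apply any map
`𝕜 ^ a → 𝕜 ^ b`, three times continuously differentiable at the values that occur, to `a` linear
combinations of affine functions of the input and of earlier results; linear combinations are free.
A probabilistic algorithm (`Alg3`) runs one of countably many programs, which depends in any way on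
the input and on random choices (tests and branching are free).

(1) Let `F` be a function on a normed space and let `t` be a probabilistic algorithm. Outside a
meagre set, for every `x` such that the third derivative of `F` at `x` contains the tensor of
`m × m` matrix multiplication (`CubicAt`), the probability that `t` outputs `F x` with
`3 a² L < m ^ ω`, where `L` is the number of the operations, is `0`. So if on a set of such inputs
which is not meagre `t` is right with probability at least `p`, then on some input in the set, with
probability at least `p`, it is right and makes at least `m ^ ω / (3 a²)` operations.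
(2) The determinant is such a function at every invertible `n × n` matrix, and the trace of the cube
at every `n × n` matrix, with `m = ⌊n / 3⌋`.
(3), (4) Hence, if for some fixed `a`, `b` and infinitely many `n` some probabilistic algorithm
which never makes more than `D n ^ τ` operations computes `det A`, or `tr A³`, with positive
probability on a set of `n × n` matrices which is not meagre, then `ω ≤ τ`.

So the determinant, a single number, cannot be computed faster than by `n ^ ω` operations, up to
constant factors, with roots, exponentials, logarithms or any other smooth functions of a bounded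
number of variables. -/
theorem result {𝕜 : Type} [NontriviallyNormedField 𝕜] (σ : 𝕜 →+* ℂ) {a b : ℕ} :
    (∀ {E : Type} [NormedAddCommGroup E] [NormedSpace 𝕜 E] {m : ℕ} (t : Alg3 𝕜 E a b) (F : E → 𝕜),
      IsMeagre {x : E | CubicAt m F x ∧
        t.pr x (fun N => N.Gives F x ∧ 3 * (a : ℝ) ^ 2 * N.L < (m : ℝ) ^ omega) ≠ 0} ∧
      ∀ (U : Set E) (p : ENNReal), ¬ IsMeagre U → (∀ x ∈ U, CubicAt m F x) →
        (∀ x ∈ U, p ≤ t.pr x fun N => N.Gives F x) →
        ∃ x ∈ U, p ≤ t.pr x fun N => N.Gives F x ∧ (m : ℝ) ^ omega ≤ 3 * (a : ℝ) ^ 2 * N.L) ∧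
    (∀ (n : ℕ) (x : Ents 𝕜 n), (detF n x ≠ 0 → CubicAt (n / 3) (detF n) x) ∧
      CubicAt (n / 3) (cubeF n) x) ∧
    (∀ τ D : ℝ, (∃ᶠ n : ℕ in atTop, ∃ t : Alg3 𝕜 (Ents 𝕜 n) a b,
      t.Works (detF n) (D * (n : ℝ) ^ τ)) → omega ≤ τ) ∧
    (∀ τ D : ℝ, (∃ᶠ n : ℕ in atTop, ∃ t : Alg3 𝕜 (Ents 𝕜 n) a b,
      t.Works (cubeF n) (D * (n : ℝ) ^ τ)) → omega ≤ τ) :=
  ⟨fun t F => ⟨pr_meagre σ t F, fun U p hU hUF h => good_input σ t F U p hU hUF h⟩,
    fun n x => ⟨fun hx => cubicAt_det n x hx, cubicAt_cube σ n x⟩,
    fun τ D h => exponent_det σ τ D h, fun τ D h => exponent_cube σ τ D h⟩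

end Pool.Agent.Results.MP_e72dc0_lc.SmoothDeterminant
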